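import Pool.Agent.WeilH_h6.Orbit

set_option autoImplicit false

/-!
# Combinatorics of invariant degrees
-/

namespace H64N

open Pool.Agent.WeilH_h6

/-- `D` is an additive submonoid of `ℤ^I`, all conjugates of `n` under the finite group `G` are in `D`,
and for every `i` and every sign there is a `G`-invariant element of `D`, of this sign at `i`, of the
same sign or zero everywhere, and zero outside of the orbit of `i`.  Then `-N n ∈ D` for some
`N ≥ 1`.

Proof: the sum `s` of the conjugates of `n` is invariant, and `-L s ∈ D` for some `L ≥ 1`. -/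
lemma neg_mem {I G : Type} [Fintype I] [Group G] [Finite G] [MulAction G I]
    (D : AddSubmonoid (I → ℤ)) (n : I → ℤ) (hn : ∀ g : G, (fun i => n (g⁻¹ • i)) ∈ D)
    (hu : ∀ (i : I) (b : Bool), ∃ u ∈ D, (∀ (g : G) (j : I), u (g • j) = u j) ∧
      (∀ j, j ∉ MulAction.orbit G i → u j = 0) ∧ (if b then 0 < u i else u i < 0)) :
    ∃ N : ℕ, 1 ≤ N ∧ (fun i => -((N : ℤ) * n i)) ∈ D := by
  classical
  have := Fintype.ofFinite G
  -- the sum of the conjugates
  obtain ⟨s, hs⟩ : ∃ s : I → ℤ, s = fun i => ∑ g : G, n (g⁻¹ • i) := ⟨_, rfl⟩
  have hsinv : ∀ (g : G) (j : I), s (g • j) = s j := by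
    intro g j
    rw [hs]
    change ∑ h : G, n (h⁻¹ • g • j) = ∑ h : G, n (h⁻¹ • j)
    rw [← Equiv.sum_comp (Equiv.mulLeft g) fun h : G => n (h⁻¹ • g • j)]
    refine Finset.sum_congr rfl fun h _ => ?_
    change n ((g * h)⁻¹ • g • j) = _
    rw [mul_inv_rev, smul_smul, inv_mul_cancel_right]
  -- an invariant function has a negative multiple in `D`
  have key : ∀ (S : Finset I) (s : I → ℤ), (∀ (g : G) (j : I), s (g • j) = s j) →
      (∀ j, s j ≠ 0 → ∃ i ∈ S, j ∈ MulAction.orbit G i) →
        ∃ L : ℕ, 1 ≤ L ∧ (fun i => -((L : ℤ) * s i)) ∈ D := by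
    intro S
    induction S using Finset.induction_on with
    | empty =>
      intro s _ h0
      refine ⟨1, le_rfl, ?_⟩
      have : (fun i => -(((1 : ℕ) : ℤ) * s i)) = 0 := by
        funext i
        by_contra h
        have h1 : s i ≠ 0 := by
          intro h2
          apply h
          rw [h2]; simp
        obtain ⟨j, hj, -⟩ := h0 i h1
        exact absurd hj (Finset.notMem_empty j)
      rw [this]
      exact zero_mem _
    | insert a S ha ih =>
      intro s hinv hsupp
      by_cases hsa : s a = 0
      · refine ih s hinv fun j hj => ?_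
        obtain ⟨i, hi, hji⟩ := hsupp j hj
        rcases Finset.mem_insert.1 hi with rfl | hi
        · exfalso
          obtain ⟨g, rfl⟩ := hji
          exact hj ((hinv g i).trans hsa)
        · exact ⟨i, hi, hji⟩
      · -- choose `u` of the opposite sign
        obtain ⟨u, huD, huinv, husupp, husgn⟩ := hu a (decide (s a < 0))
        -- `c := |u a|`, `d := |s a|`, `c * s + d * u` vanishes on the orbit of `a`
        have hua : u a ≠ 0 := by
          intro h
          rw [h] at husgn
          split_ifs at husgn <;> exact lt_irrefl _ husgn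
        have hprod : (u a).natAbs * s a + (s a).natAbs * u a = 0 := by
          rcases lt_or_gt_of_ne hsa with h | h
          · have h1 : 0 < u a := by simpa [h] using husgn
            rw [Int.natCast_natAbs, Int.natCast_natAbs, abs_of_pos h1, abs_of_neg h]
            ring
          · have h1 : u a < 0 := by
              have h2 : ¬ s a < 0 := not_lt.2 h.le
              simpa [h2] using husgn
            rw [Int.natCast_natAbs, Int.natCast_natAbs, abs_of_neg h1, abs_of_pos h]
            ring
        obtain ⟨L, hL, hLD⟩ := ih (fun j => (u a).natAbs * s j + (s a).natAbs * u j) (by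
            intro g j
            rw [hinv, huinv]) (by
            intro j hj
            by_cases hja : j ∈ MulAction.orbit G a
            · exfalso
              obtain ⟨g, rfl⟩ := hja
              apply hj
              change ((u a).natAbs : ℤ) * s (g • a) + (s a).natAbs * u (g • a) = 0
              rw [hinv, huinv, hprod]
            · have h1 : u j = 0 := husupp j hja
              have h2 : s j ≠ 0 := by
                intro h2
                apply hj
                rw [h1, h2]; simp
              obtain ⟨i, hi, hji⟩ := hsupp j h2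
              rcases Finset.mem_insert.1 hi with rfl | hi
              · exact absurd hji hja
              · exact ⟨i, hi, hji⟩)
        refine ⟨L * (u a).natAbs, Nat.one_le_iff_ne_zero.2 (Nat.mul_ne_zero (by omega)
          (Int.natAbs_ne_zero.2 hua)), ?_⟩
        have h3 : (fun i => -(((L * (u a).natAbs : ℕ) : ℤ) * s i)) =
            (fun i => -((L : ℤ) * ((u a).natAbs * s i + (s a).natAbs * u i))) +
              (L * (s a).natAbs) • u := by
          funext i
          change _ = -((L : ℤ) * ((u a).natAbs * s i + (s a).natAbs * u i)) +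
            (L * (s a).natAbs) • u i
          rw [nsmul_eq_mul]
          push_cast
          ring
        rw [h3]
        exact add_mem hLD (nsmul_mem huD _)
  obtain ⟨L, hL, hLD⟩ := key Finset.univ s hsinv fun j _ =>
    ⟨j, Finset.mem_univ _, MulAction.mem_orbit_self j⟩
  refine ⟨L, hL, ?_⟩
  have h4 : (fun i => -((L : ℤ) * n i)) = (fun i => -((L : ℤ) * s i)) +
      L • ∑ g ∈ (Finset.univ : Finset G).erase 1, fun i => n (g⁻¹ • i) := by
    funext i
    have h5 : s i = n i + ∑ g ∈ (Finset.univ : Finset G).erase 1, n (g⁻¹ • i) := by
      rw [hs]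
      change ∑ g : G, n (g⁻¹ • i) = _
      rw [← Finset.add_sum_erase _ _ (Finset.mem_univ (1 : G)), inv_one, one_smul]
    change _ = -((L : ℤ) * s i) +
      L • (∑ g ∈ (Finset.univ : Finset G).erase 1, fun i => n (g⁻¹ • i)) i
    rw [Finset.sum_apply, nsmul_eq_mul, h5]
    ring
  rw [h4]
  exact add_mem hLD (nsmul_mem (sum_mem fun g _ => hn g) _)

end H64N
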