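import Pool.Agent.WeilH_h6.CondIDefs

set_option autoImplicit false

/-!
# Definitions: coefficients of linear relations between classes of cycles

`HomEqNumAt`, `CycIndepAt`: the conjecture `D` and the condition `I` of Tate in one codimension.
`coeffs`, `relCyc`: the cycles which occur in a `K`-linear relation between classes of cycles whose
coefficients are linearly independent over `ℚ`, and their `ℚ`-span.  `PreservesRel`: a map between
groups of cycles which preserves the relations with algebraic coefficients between the classes (for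
instance a specialisation map).  `RatGenerate`: the identity of `H(X)` is a sum of compositions
`η ∘ π ∘ θ`, with correspondences `θ : H(X) → H(X^M)`, `η : H(X^M) → H(X)` with rational coefficients
and `π` the projector of `H(X^M)` onto a tensor product of `M` factors `V_i`, `V_i^∨`.
-/

noncomputable section

namespace H64N

open AlgebraicGeometry CategoryTheory MonoidalCategory
open Pool.Agent.WeilH_h6 Pool.Agent.WeilH_h6.VarClass

universe u v w u' w'

variable {k : Type u} [Field k] {𝒱 : VarClass k} {K : Type v} [Field K] (W : Weil.{u, v, w} 𝒱 K)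

/-- `D(X)` in codimension `i`: a cycle of codimension `i` on `X` with rational coefficients is
homologically equivalent to zero if and only if it is numerically equivalent to zero. -/
def HomEqNumAt (X : 𝒱.Obj) (i : ℕ) : Prop :=
  ∀ z : Cyc X i, W.NumTrivial z ↔ W.cl z = 0

/-- Condition `I` in codimension `i` for coefficients in the set `T ⊆ K`: if the classes of the cycles
`z_1, …, z_r` of codimension `i` are linearly independent over `ℚ`, then they satisfy no nontrivial
linear relation with coefficients in `T`. -/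
def CycIndepAt [CharZero K] (X : 𝒱.Obj) (i : ℕ) (T : Set K) : Prop :=
  ∀ (r : ℕ) (z : Fin r → Cyc X i),
    (∀ q : Fin r → ℚ, ∑ a, (q a : K) • W.cl (z a) = 0 → q = 0) →
      ∀ t : Fin r → K, (∀ a, t a ∈ T) → ∑ a, t a • W.cl (z a) = 0 → t = 0

/-- The cycles `y_0` of codimension `i` on `X` which occur in a relation `∑_a t_a cl(y_a) = 0` between
classes of cycles of codimension `i`, whose coefficients `t_0, …, t_r` are elements of `T`, linearly
independent over `ℚ`. -/
def coeffs [CharZero K] (X : 𝒱.Obj) (i : ℕ) (T : Set K) : Set (Cyc X i) :=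
  {z | ∃ (r : ℕ) (t : Fin (r + 1) → K) (y : Fin (r + 1) → Cyc X i), (∀ a, t a ∈ T) ∧
    (∀ q : Fin (r + 1) → ℚ, ∑ a, (q a : K) * t a = 0 → q = 0) ∧
      ∑ a, t a • W.cl (y a) = 0 ∧ y 0 = z}

/-- The `ℚ`-linear combinations of elements of `coeffs X i T`. -/
def relCyc [CharZero K] (X : 𝒱.Obj) (i : ℕ) (T : Set K) : Submodule ℚ (Cyc X i) :=
  Submodule.span ℚ (coeffs W X i T)

/-- `φ : H(Y) → H(Z)` is the action of (a sum of) cycles on `Y × Z` with rational coefficients. -/
def IsRatMap (Y Z : 𝒱.Obj) (φ : W.Hom Y Z) : Prop :=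
  ∃ α ∈ W.ratSpan (Y.prod Z), ∀ (v : W.H Y) (v' : W.H Z),
    W.deg (W.ap φ v * v') = W.deg (α * W.cross v v')

variable {W}

/-- `π` is the projector of `H(X^M)` onto `V_{ℓ_1} ⊗ ⋯ ⊗ V_{ℓ_M}`: the external product of the
projectors `p_i` (onto `V_i`) and `p'_i` (onto `V_i^∨`). -/
def IsWordProj {X : 𝒱.Obj} {I : Type} (P : W.Pieces X I) {M : ℕ} (l : Fin M → I × Bool)
    (π : W.Hom (X.pow M) (X.pow M)) : Prop :=
  ∀ v : Fin M → W.H X, W.ap π (W.pureT v) =
    W.pureT fun s => W.ap (if (l s).2 then P.p (l s).1 else P.p' (l s).1) (v s)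

/-- The pieces generate `H(X)` by means of correspondences with rational coefficients: the identity of
`H(X)` is a finite sum of compositions `H(X) → H(X^M) → H(X^M) → H(X)` of a correspondence with rational
coefficients, the projector onto some `V_{ℓ_1} ⊗ ⋯ ⊗ V_{ℓ_M}` and a correspondence with rational
coefficients. -/
def RatGenerate {X : 𝒱.Obj} {I : Type} (P : W.Pieces X I) : Prop :=
  ∃ (N : ℕ) (M : Fin N → ℕ) (l : ∀ a, Fin (M a) → I × Bool)
    (θ : ∀ a, W.Hom X (X.pow (M a))) (π : ∀ a, W.Hom (X.pow (M a)) (X.pow (M a)))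
    (η : ∀ a, W.Hom (X.pow (M a)) X),
    (∀ a, IsRatMap W X (X.pow (M a)) (θ a)) ∧ (∀ a, IsWordProj P (l a) (π a)) ∧
    (∀ a, IsRatMap W (X.pow (M a)) X (η a)) ∧
    ∀ v : W.H X, ∑ a, W.ap (η a) (W.ap (π a) (W.ap (θ a) v)) = v

/-- For every piece `V_i` and every sign there is a nonempty word in the conjugates of `V_i`
(respectively of `V_i^∨`), whose tensor product contains an algebraic class which is not numerically
trivial; for instance `V_i ⊗ V_{i'}` and `V_i^∨ ⊗ V_{i'}^∨`, where `V_i^∨` is isomorphic, up to twist, to a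
conjugate `V_{i'}` of `V_i` by a divisor class. -/
def NumClass [CharZero K] {X : 𝒱.Obj} {I : Type} {P : W.Pieces X I} (D : P.RatData) : Prop :=
  ∀ (i : I) (b : Bool), ∃ (m : ℕ) (l : Fin (m + 1) → I × Bool),
    (∀ s, (∃ σ : K ≃+* K, (l s).1 = D.conj σ i) ∧ (l s).2 = b) ∧
    ∃ z ∈ P.wordPart l, z ∈ W.algSpan (X.pow (m + 1)) ∧
      ∃ z' ∈ W.algSpan (X.pow (m + 1)), W.deg (z * z') ≠ 0

variable (W)

/-- The map `sp` from cycles of codimension `i` on `X` to cycles of codimension `i'` on `Y` preserves the
linear relations with algebraic coefficients between the classes of cycles.  Here `X` and `Y` may be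
varieties over different fields; the coefficients of the two cohomology theories are the same.  (For
example a specialisation map, by the isomorphism of the cohomology of the generic and of the special
fibre.) -/
def PreservesRel [CharZero K] {k' : Type u'} [Field k'] {𝒱' : VarClass k'}
    (W' : Weil.{u', v, w'} 𝒱' K) {X : 𝒱.Obj} {Y : 𝒱'.Obj} {i i' : ℕ} (sp : Cyc X i → Cyc Y i') :
    Prop :=
  ∀ (r : ℕ) (t : Fin r → K) (y : Fin r → Cyc X i), (∀ a, IsAlgebraic ℚ (t a)) →
    ∑ a, t a • W.cl (y a) = 0 → ∑ a, t a • W'.cl (sp (y a)) = 0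

end H64N
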