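import Pool.Agent.W_f569db_h64.RatMap

set_option autoImplicit false

/-!
# Coefficients of relations, at the level of cohomology classes
-/

noncomputable section

namespace H64N

open AlgebraicGeometry CategoryTheory MonoidalCategory
open Pool.Agent.WeilH_h6 Pool.Agent.WeilH_h6.VarClass Pool.Agent.WeilH_h6.Weil

universe u v w

section field

variable {K : Type v} [Field K] [CharZero K]

/-- linear independence over `ℚ` -/
def Indep {ι : Type*} [Fintype ι] (t : ι → K) : Prop :=
  ∀ q : ι → ℚ, ∑ a, (q a : K) * t a = 0 → q = 0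

lemma indep_iff {ι : Type*} [Fintype ι] (t : ι → K) : Indep t ↔ LinearIndependent ℚ t := by
  rw [Fintype.linearIndependent_iff]
  unfold Indep
  constructor
  · intro h q hq i
    have := h q (by rw [← hq]; exact Finset.sum_congr rfl fun a _ => (Rat.smul_def _ _).symm)
    rw [this]; rfl
  · intro h q hq
    funext i
    exact h q (by rw [← hq]; exact Finset.sum_congr rfl fun a _ => Rat.smul_def _ _) i

/-- A finite family of algebraic numbers is a rational combination of a finite family of algebraic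
numbers which is linearly independent over `ℚ`. -/
lemma exists_basis {ι : Type*} [Finite ι] (t : ι → K) (ht : ∀ i, IsAlgebraic ℚ (t i)) :
    ∃ (s : ℕ) (e : Fin s → K) (q : ι → Fin s → ℚ), (∀ b, IsAlgebraic ℚ (e b)) ∧ Indep e ∧
      ∀ i, t i = ∑ b, (q i b : K) * e b := by
  let V : Submodule ℚ K := Submodule.span ℚ (Set.range t)
  have hV : ∀ x ∈ V, IsAlgebraic ℚ x := by
    intro x hx
    induction hx using Submodule.span_induction with
    | mem x hx => obtain ⟨i, rfl⟩ := hx; exact ht i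
    | zero => exact isAlgebraic_zero
    | add x y _ _ hx hy => exact hx.add hy
    | smul q x _ hx =>
      rw [Rat.smul_def]
      exact (isAlgebraic_algebraMap (q : ℚ)).mul hx
  have : Module.Finite ℚ V := Module.Finite.span_of_finite ℚ (Set.finite_range t)
  let B := Module.finBasis ℚ V
  refine ⟨Module.finrank ℚ V, fun b => (B b : K), fun i b =>
    B.repr ⟨t i, Submodule.subset_span ⟨i, rfl⟩⟩ b, fun b => hV _ (B b).2, ?_, fun i => ?_⟩
  · rw [indep_iff]
    exact B.linearIndependent.map' V.subtype (Submodule.ker_subtype V)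
  · have h1 := B.sum_repr ⟨t i, Submodule.subset_span ⟨i, rfl⟩⟩
    have h2 := congrArg (V.subtype) h1
    rw [map_sum] at h2
    refine (h2.symm.trans ?_ :)
    refine Finset.sum_congr rfl fun b _ => ?_
    rw [map_smul, Rat.smul_def]
    rfl

lemma isAlgebraic_map (σ : K ≃+* K) {x : K} (h : IsAlgebraic ℚ x) : IsAlgebraic ℚ (σ x) := by
  let f : K →ₐ[ℚ] K := (σ : K →+* K).toRatAlgHom
  exact h.algHom f

lemma indep_map (σ : K ≃+* K) {ι : Type*} [Fintype ι] {t : ι → K} (h : Indep t) :
    Indep fun i => σ (t i) := by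
  intro q hq
  refine h q (σ.injective ?_)
  rw [map_sum, map_zero, ← hq]
  refine Finset.sum_congr rfl fun a _ => ?_
  rw [map_mul, map_ratCast]

end field

variable {k : Type u} [Field k] {𝒱 : VarClass k} {K : Type v} [Field K] [CharZero K]
  (W : Weil.{u, v, w} 𝒱 K)

/-- The coefficients of the relations between elements of `ratSpan`, with algebraic and independent
coefficients. -/
def gens (Y : 𝒱.Obj) : Set (W.H Y) :=
  {b | ∃ (r : ℕ) (t : Fin (r + 1) → K) (y : Fin (r + 1) → W.H Y), (∀ a, IsAlgebraic ℚ (t a)) ∧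
    Indep t ∧ (∀ a, y a ∈ W.ratSpan Y) ∧ ∑ a, t a • y a = 0 ∧ y 0 = b}

lemma gens_ratSpan {Y : 𝒱.Obj} {b : W.H Y} (h : b ∈ gens W Y) : b ∈ W.ratSpan Y := by
  obtain ⟨r, t, y, -, -, h, -, rfl⟩ := h
  exact h 0

/-- general index set -/
lemma mem_gens {Y : 𝒱.Obj} {ι : Type*} [Fintype ι] (t : ι → K) (y : ι → W.H Y)
    (ht : ∀ a, IsAlgebraic ℚ (t a)) (hi : Indep t) (hy : ∀ a, y a ∈ W.ratSpan Y)
    (h : ∑ a, t a • y a = 0) (a : ι) : y a ∈ gens W Y := by
  classical
  obtain ⟨r, hr⟩ : ∃ r, Fintype.card ι = r + 1 := by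
    have : 0 < Fintype.card ι := Fintype.card_pos_iff.2 ⟨a⟩
    exact ⟨Fintype.card ι - 1, by omega⟩
  let e0 : ι ≃ Fin (r + 1) := Fintype.equivFinOfCardEq hr
  let e : Fin (r + 1) ≃ ι := (Equiv.swap 0 (e0 a)).trans e0.symm
  have he : e 0 = a := by
    change e0.symm (Equiv.swap 0 (e0 a) 0) = a
    rw [Equiv.swap_apply_left, Equiv.symm_apply_apply]
  refine ⟨r, fun j => t (e j), fun j => y (e j), fun j => ht _, ?_, fun j => hy _, ?_, by
    change y (e 0) = y a; rw [he]⟩
  · intro q hq
    have h1 := hi (fun i => q (e.symm i)) (by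
      rw [← e.sum_comp]
      simpa using hq)
    funext j
    have h2 := congrFun h1 (e j)
    simpa using h2
  · rw [← h, ← e.sum_comp]

lemma gens_smul {Y : 𝒱.Obj} {b : W.H Y} (h : b ∈ gens W Y) (q : ℚ) : (q : K) • b ∈ gens W Y := by
  obtain ⟨r, t, y, h1, h2, h3, h4, rfl⟩ := h
  refine ⟨r, t, fun a => (q : K) • y a, h1, h2, fun a => W.ratSpan_smul (h3 a) q, ?_, rfl⟩
  have h5 : ∑ a, t a • (q : K) • y a = (q : K) • ∑ a, t a • y a := by
    rw [Finset.smul_sum]
    exact Finset.sum_congr rfl fun a _ => smul_comm _ _ _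
  rw [h5, h4, smul_zero]

lemma gens_map {Y Z : 𝒱.Obj} {b : W.H Y} (h : b ∈ gens W Y) {φ : W.H Y →ₗ[K] W.H Z}
    (hφ : W.RatHom φ) : φ b ∈ gens W Z := by
  obtain ⟨r, t, y, h1, h2, h3, h4, rfl⟩ := h
  refine ⟨r, t, fun a => φ (y a), h1, h2, fun a => hφ.apply_mem W (h3 a), ?_, rfl⟩
  have h5 : ∑ a, t a • φ (y a) = φ (∑ a, t a • y a) := by
    rw [map_sum]
    exact Finset.sum_congr rfl fun a _ => (map_smul _ _ _).symm
  rw [h5, h4, map_zero]

/-- The rational combinations of the coefficients of relations. -/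
def relS (Y : 𝒱.Obj) : AddSubmonoid (W.H Y) := AddSubmonoid.closure (gens W Y)

lemma relS_smul {Y : 𝒱.Obj} {b : W.H Y} (h : b ∈ relS W Y) (q : ℚ) : (q : K) • b ∈ relS W Y := by
  refine AddSubmonoid.closure_induction (motive := fun b _ => (q : K) • b ∈ relS W Y) ?_ ?_ ?_ h
  · intro b hb
    exact AddSubmonoid.subset_closure (gens_smul W hb q)
  · rw [smul_zero]; exact zero_mem _
  · intro x y _ _ hx hy
    rw [smul_add]; exact add_mem hx hy

/-- Finite combinations, with algebraic numbers as coefficients, of coefficients of relations. -/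
def InA {Y : 𝒱.Obj} (x : W.H Y) : Prop :=
  ∃ (n : ℕ) (e : Fin n → K) (r : Fin n → W.H Y), (∀ c, IsAlgebraic ℚ (e c)) ∧
    (∀ c, r c ∈ gens W Y) ∧ x = ∑ c, e c • r c

lemma InA.zero {Y : 𝒱.Obj} : InA W (0 : W.H Y) :=
  ⟨0, fun c => c.elim0, fun c => c.elim0, fun c => c.elim0, fun c => c.elim0, by simp⟩

lemma InA.add {Y : 𝒱.Obj} {x y : W.H Y} (hx : InA W x) (hy : InA W y) : InA W (x + y) := by
  obtain ⟨n, e, r, h1, h2, rfl⟩ := hx
  obtain ⟨n', e', r', h1', h2', rfl⟩ := hy
  refine ⟨n + n', Fin.append e e', Fin.append r r', fun c => ?_, fun c => ?_, ?_⟩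
  · refine Fin.addCases (fun i => ?_) (fun i => ?_) c
    · rw [Fin.append_left]; exact h1 i
    · rw [Fin.append_right]; exact h1' i
  · refine Fin.addCases (fun i => ?_) (fun i => ?_) c
    · rw [Fin.append_left]; exact h2 i
    · rw [Fin.append_right]; exact h2' i
  · rw [Fin.sum_univ_add]
    simp only [Fin.append_left, Fin.append_right]

lemma InA.sum {Y : 𝒱.Obj} {ι : Type*} (s : Finset ι) {x : ι → W.H Y} (hx : ∀ i ∈ s, InA W (x i)) :
    InA W (∑ i ∈ s, x i) := by
  classical
  induction s using Finset.induction_on with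
  | empty => rw [Finset.sum_empty]; exact InA.zero W
  | insert i s hi ih =>
    rw [Finset.sum_insert hi]
    exact InA.add W (hx i (Finset.mem_insert_self _ _))
      (ih fun j hj => hx j (Finset.mem_insert_of_mem hj))

lemma InA.of_gens {Y : 𝒱.Obj} {e : K} (he : IsAlgebraic ℚ e) {r : W.H Y} (hr : r ∈ gens W Y) :
    InA W (e • r) :=
  ⟨1, fun _ => e, fun _ => r, fun _ => he, fun _ => hr, by simp⟩

lemma InA.map {Y Z : 𝒱.Obj} {x : W.H Y} (hx : InA W x) {φ : W.H Y →ₗ[K] W.H Z}
    (hφ : W.RatHom φ) : InA W (φ x) := by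
  obtain ⟨n, e, r, h1, h2, rfl⟩ := hx
  refine ⟨n, e, fun c => φ (r c), h1, fun c => gens_map W (h2 c) hφ, ?_⟩
  rw [map_sum]
  exact Finset.sum_congr rfl fun c _ => map_smul _ _ _

/-- sums with rational coefficients in `ratSpan` -/
lemma sum_mem_ratSpan {Y : 𝒱.Obj} {ι : Type*} (s : Finset ι) (q : ι → ℚ) {y : ι → W.H Y}
    (hy : ∀ i ∈ s, y i ∈ W.ratSpan Y) : ∑ i ∈ s, (q i : K) • y i ∈ W.ratSpan Y :=
  sum_mem fun i hi => W.ratSpan_smul (hy i hi) (q i)

omit [CharZero K] in
/-- Rearrangement: `t_i = ∑_b q_{i b} e_b`. -/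
lemma rearrange {Y : 𝒱.Obj} {ι : Type*} [Fintype ι] {s : ℕ} (t : ι → K) (e : Fin s → K)
    (q : ι → Fin s → ℚ) (h : ∀ i, t i = ∑ b, (q i b : K) * e b) (y : ι → W.H Y) :
    ∑ i, t i • y i = ∑ b, e b • ∑ i, (q i b : K) • y i := by
  have h1 : ∀ i, t i • y i = ∑ b, e b • (q i b : K) • y i := by
    intro i
    rw [h i, Finset.sum_smul]
    refine Finset.sum_congr rfl fun b _ => ?_
    rw [smul_smul, mul_comm]
  rw [Finset.sum_congr rfl fun i _ => h1 i, Finset.sum_comm]
  exact Finset.sum_congr rfl fun b _ => Finset.smul_sum.symm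

/-- A relation, transformed by an automorphism of `K`, expresses the original combination by
coefficients of relations. -/
lemma inA_of_conj {Y : 𝒱.Obj} {ι : Type*} [Fintype ι] (σ : K ≃+* K) (t : ι → K)
    (ht : ∀ i, IsAlgebraic ℚ (t i)) (y : ι → W.H Y) (hy : ∀ i, y i ∈ W.ratSpan Y)
    (h : ∑ i, σ (t i) • y i = 0) : InA W (∑ i, t i • y i) := by
  obtain ⟨s, e, q, he, hi, hq⟩ := exists_basis t ht
  have hq' : ∀ i, σ (t i) = ∑ b, (q i b : K) * σ (e b) := by
    intro i
    rw [hq i, map_sum]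
    refine Finset.sum_congr rfl fun b _ => ?_
    rw [map_mul, map_ratCast]
  have h1 := rearrange W (fun i => σ (t i)) (fun b => σ (e b)) q hq' y
  rw [h] at h1
  have h2 : ∀ b, ∑ i, (q i b : K) • y i ∈ gens W Y := fun b =>
    mem_gens W (fun b => σ (e b)) (fun b => ∑ i, (q i b : K) • y i)
      (fun b => isAlgebraic_map σ (he b)) (indep_map σ hi)
      (fun b => sum_mem_ratSpan W _ _ fun i _ => hy i) h1.symm b
  rw [rearrange W t e q hq y]
  exact InA.sum W _ fun b _ => InA.of_gens W (he b) (h2 b)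

/-- A class of a cycle with rational coefficients which is a combination with algebraic coefficients of
coefficients of relations is a rational combination of coefficients of relations. -/
lemma mem_relS_of_inA {Y : 𝒱.Obj} {a : W.H Y} (ha : a ∈ W.ratSpan Y) (h : InA W a) :
    a ∈ relS W Y := by
  obtain ⟨n, e, r, h1, h2, h3⟩ := h
  -- the family `1, -e_c`, with `a, r_c`
  let t : Option (Fin n) → K := fun o => o.elim 1 fun c => -e c
  let y : Option (Fin n) → W.H Y := fun o => o.elim a r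
  have ht : ∀ o, IsAlgebraic ℚ (t o) := by
    intro o
    cases o with
    | none => exact isAlgebraic_one
    | some c => exact (h1 c).neg
  have hy : ∀ o, y o ∈ W.ratSpan Y := by
    intro o
    cases o with
    | none => exact ha
    | some c => exact gens_ratSpan W (h2 c)
  have hrel : ∑ o, t o • y o = 0 := by
    rw [Fintype.sum_option]
    change (1 : K) • a + ∑ c, (-e c) • r c = 0
    rw [one_smul]
    simp only [neg_smul, Finset.sum_neg_distrib]
    rw [← h3, add_neg_cancel]
  obtain ⟨s, f, q, hf, hi, hq⟩ := exists_basis t ht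
  have h4 := rearrange W t f q hq y
  rw [hrel] at h4
  have h5 : ∀ b, ∑ o, (q o b : K) • y o ∈ gens W Y := fun b =>
    mem_gens W f (fun b => ∑ o, (q o b : K) • y o) hf hi
      (fun b => sum_mem_ratSpan W _ _ fun i _ => hy i) h4.symm b
  -- some coefficient of `1` is not zero
  obtain ⟨b, hb⟩ : ∃ b, q none b ≠ 0 := by
    by_contra hcon
    push Not at hcon
    have h6 := hq none
    simp only [hcon, Rat.cast_zero, zero_mul, Finset.sum_const_zero] at h6
    exact one_ne_zero h6
  have h8 : (q none b : K) • a = (∑ o, (q o b : K) • y o) +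
      ∑ c, ((-(q (some c) b) : ℚ) : K) • r c := by
    rw [Fintype.sum_option]
    change (q none b : K) • a = (q none b : K) • a + ∑ c, (q (some c) b : K) • r c +
      ∑ c, ((-(q (some c) b) : ℚ) : K) • r c
    rw [add_assoc, ← Finset.sum_add_distrib]
    have : ∀ c, (q (some c) b : K) • r c + ((-(q (some c) b) : ℚ) : K) • r c = 0 := by
      intro c
      rw [Rat.cast_neg, neg_smul, add_neg_cancel]
    simp only [this, Finset.sum_const_zero, add_zero]
  have h9 : (q none b : K) • a ∈ relS W Y := by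
    rw [h8]
    refine add_mem (AddSubmonoid.subset_closure (h5 b)) (sum_mem fun c _ => ?_)
    exact AddSubmonoid.subset_closure (gens_smul W (h2 c) _)
  have h10 := relS_smul W h9 (q none b)⁻¹
  rw [smul_smul, Rat.cast_inv, inv_mul_cancel₀ (by exact_mod_cast hb), one_smul] at h10
  exact h10

end H64N
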