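import Pool.Agent.WeilH_h6.Main
import Pool.Agent.WeilH_h6.ConjClass
import Pool.Agent.W_f569db_h64.Rel
import Pool.Agent.W_f569db_h64.Comb

set_option autoImplicit false

/-!
# The word parts of a numerically trivial class with rational coefficients
-/

noncomputable section

namespace H64N

open AlgebraicGeometry CategoryTheory MonoidalCategory
open Pool.Agent.WeilH_h6 Pool.Agent.WeilH_h6.VarClass Pool.Agent.WeilH_h6.Weil

universe u v w

variable {k : Type u} [Field k] {𝒱 : VarClass k} {K : Type v} [Field K] [CharZero K]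
  {W : Weil.{u, v, w} 𝒱 K}

variable {X : 𝒱.Obj} {I : Type} {P : W.Pieces X I}

/-- The local form of `nt_word_eq_zero` (same proof). -/
lemma nt_word_zero [Fintype I] {S : Set (Module.End K (W.H X))} (hS : P.AbsIrr S)
    {m : ℕ} {l : Fin m → I × Bool} {z : W.H (X.pow m)} (hz : z ∈ P.wordPart l)
    (hnt : W.NT z) {N m' : ℕ} {l' : Fin m' → I × Bool} {z' : W.H (X.pow m')} (hN : 1 ≤ N)
    (hz' : z' ∈ P.wordPart l') (ha' : z' ∈ W.algSpan (X.pow m')) (hz'0 : z' ≠ 0)
    (hd : ∀ i, wdeg l' i = -(N * wdeg l i)) : z = 0 := by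
  by_contra hz0
  obtain ⟨N, rfl⟩ : ∃ M, N = M + 1 := ⟨N - 1, by omega⟩
  set Z := W.box2 (W.box fun _ : Fin (N + 1) => z) z' with hZ
  set L := Fin.append (fun j : Fin ((N + 1) * m) => l (finProdFinEquiv.symm j).2) l' with hL
  have hZw : Z ∈ P.wordPart L := P.box2_mem_wordPart (P.box_mem_wordPart fun _ => hz) hz'
  have hZnt : W.NT Z := NT.box2 W (NT.box W fun _ => hnt) ha'
  have hZ0 : Z ≠ 0 := W.box2_ne_zero ha' (W.box_ne_zero (fun _ => hnt.1) fun _ => hz0) hz'0
  have hL0 : ∀ i, wdeg L i = 0 := by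
    intro i
    rw [hL, wdeg_append, wdeg_box, hd i]
    push_cast
    ring
  obtain ⟨r, w, e, he⟩ := sort_word L hL0
  have h1 := P.sel_mem_wordPart e.symm hZw
  rw [Equiv.symm_symm] at h1
  have h2 : (fun t => L (e t)) = Fin.append (fun s => (w s, false)) fun s => (w s, true) :=
    funext he
  rw [h2] at h1
  exact hZ0 (W.pull_sel_injective e.symm (P.sorted_eq_zero hS w h1 (hZnt.pull W _)))

/-- The group generated by the conjugations. -/
def galG (D : P.RatData) : Subgroup (Equiv.Perm I) := Subgroup.closure (Set.range D.conj)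

lemma galG_spec (D : P.RatData) {g : Equiv.Perm I} (hg : g ∈ galG D) :
    ∃ σ : K ≃+* K, ∀ i j, D.c (g i) j = σ (D.c i j) := by
  refine Subgroup.closure_induction (p := fun g _ => ∃ σ : K ≃+* K, ∀ i j,
    D.c (g i) j = σ (D.c i j)) ?_ ?_ ?_ ?_ hg
  · rintro _ ⟨σ, rfl⟩
    exact ⟨σ, D.conj_c σ⟩
  · exact ⟨RingEquiv.refl K, fun i j => rfl⟩
  · rintro a b _ _ ⟨σ, hσ⟩ ⟨τ, hτ⟩
    refine ⟨τ.trans σ, fun i j => ?_⟩
    change D.c (a (b i)) j = σ (τ (D.c i j))
    rw [hσ, hτ]
  · rintro a _ ⟨σ, hσ⟩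
    refine ⟨σ.symm, fun i j => ?_⟩
    have h1 := hσ (a⁻¹ i) j
    have h2 : a (a⁻¹ i) = i := a.apply_symm_apply i
    rw [h2] at h1
    rw [h1, RingEquiv.symm_apply_apply]

lemma galG_inv (D : P.RatData) {u : I → ℤ} (hu : ∀ (σ : K ≃+* K) j, u (D.conj σ j) = u j)
    {g : Equiv.Perm I} (hg : g ∈ galG D) : ∀ j, u (g j) = u j := by
  refine Subgroup.closure_induction (p := fun g _ => ∀ j, u (g j) = u j) ?_ ?_ ?_ ?_ hg
  · rintro _ ⟨σ, rfl⟩ j
    exact hu σ j
  · intro j; rfl
  · intro a b _ _ ha hb j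
    change u (a (b j)) = u j
    rw [ha, hb]
  · intro a _ ha j
    have h2 : a (a⁻¹ j) = j := a.apply_symm_apply j
    rw [← ha (a⁻¹ j), h2]

/-- Traces of elements of `ratSpan` are rational. -/
lemma tr_ratSpan {Y : 𝒱.Obj} {a : W.H Y} (ha : a ∈ W.ratSpan Y) : ∃ q : ℚ, W.tr Y a = q := by
  refine AddSubmonoid.closure_induction (motive := fun a _ => ∃ q : ℚ, W.tr Y a = q) ?_ ?_ ?_ ha
  · rintro _ ⟨i, z, rfl⟩
    by_cases hi : i = Y.dim
    · refine ⟨z.sum fun _ q => q, ?_⟩
      unfold Weil.cl cycSum Finsupp.sum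
      rw [map_sum, Rat.cast_sum]
      refine Finset.sum_congr rfl fun x _ => ?_
      rw [map_smul, W.tr_clPt Y x.1 (by rw [x.2, hi]), smul_eq_mul, mul_one]
    · exact ⟨0, by rw [W.tr_grad Y _ _ (W.cl_mem_grad z) (by omega), Rat.cast_zero]⟩
  · exact ⟨0, by rw [map_zero, Rat.cast_zero]⟩
  · rintro x y _ _ ⟨q, hq⟩ ⟨q', hq'⟩
    exact ⟨q + q', by rw [map_add, hq, hq', Rat.cast_add]⟩

omit [CharZero K] in
/-- Orthogonality to `ratSpan` implies orthogonality to `algSpan`. -/
lemma nt_of_ratSpan {Y : 𝒱.Obj} {a : W.H Y} (ha : a ∈ W.algSpan Y)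
    (h : ∀ b ∈ W.ratSpan Y, W.tr Y (a * b) = 0) : W.NT a := by
  refine ⟨ha, fun b hb => ?_⟩
  unfold algSpan at hb
  induction hb using Submodule.span_induction with
  | mem b hb =>
    obtain ⟨j, z', rfl⟩ := hb
    exact h _ (W.cl_mem_ratSpan z')
  | zero => rw [mul_zero, map_zero]
  | add a b _ _ ha hb => rw [mul_add, map_add, ha, hb, add_zero]
  | smul c a _ ha => rw [mul_smul_comm, map_smul, ha, smul_zero]

/-- Coefficients of relations are numerically trivial. -/
lemma nt_of_gens {Y : 𝒱.Obj} {a : W.H Y} (ha : a ∈ gens W Y) : W.NT a := by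
  obtain ⟨r, t, y, -, h2, h3, h4, rfl⟩ := ha
  refine nt_of_ratSpan (W.ratSpan_le (h3 0)) fun b hb => ?_
  choose q hq using fun a => tr_ratSpan (W.mul_mem_ratSpan (h3 a) hb)
  have h5 : ∑ a, (q a : K) * t a = 0 := by
    have h6 := congrArg (fun x => W.tr Y (x * b)) h4
    simp only [zero_mul, map_zero, Finset.sum_mul, map_sum, smul_mul_assoc, map_smul, hq,
      smul_eq_mul] at h6
    rw [← h6]
    exact Finset.sum_congr rfl fun a _ => mul_comm _ _
  rw [hq, congrFun (h2 q h5) 0]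
  simp

omit [CharZero K] in
lemma nt_sum {Y : 𝒱.Obj} {ι : Type*} (s : Finset ι) (c : ι → K) {x : ι → W.H Y}
    (hx : ∀ i ∈ s, W.NT (x i)) : W.NT (∑ i ∈ s, c i • x i) := by
  refine ⟨Submodule.sum_mem _ fun i hi => Submodule.smul_mem _ _ (hx i hi).1, fun b hb => ?_⟩
  rw [Finset.sum_mul, map_sum]
  refine Finset.sum_eq_zero fun i hi => ?_
  rw [smul_mul_assoc, map_smul, (hx i hi).2 b hb, smul_zero]

lemma InA.nt {Y : 𝒱.Obj} {x : W.H Y} (hx : InA W x) : W.NT x := by
  obtain ⟨n, e, r, -, h2, rfl⟩ := hx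
  exact nt_sum _ _ fun c _ => nt_of_gens (h2 c)

/-- If a conjugate of the part `l` of a class with rational coefficients vanishes, then the part `l` is a
combination of coefficients of relations. -/
lemma inA_of_conj_zero (D : P.RatData) {M : ℕ} (l : Fin M → I × Bool) {a : W.H (X.pow M)}
    (ha : a ∈ W.ratSpan (X.pow M)) (g : galG D)
    (hg : W.powMap M (fun s => P.proj (g • (l s).1, (l s).2)) a = 0) :
    InA W (W.powMap M (fun s => P.proj (l s)) a) := by
  obtain ⟨σ, hσ⟩ := galG_spec D g.2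
  obtain ⟨Q, hQ, hproj⟩ := W.ConjClass_Q D
  have e1 := W.powMap_sum (fun t => P.proj (l t)) (fun t j => D.c (l t).1 j) (fun t => Q (l t).2)
    (fun t v => hproj (l t).1 (l t).2 v) a
  have e2 := W.powMap_sum (fun t => P.proj (g • (l t).1, (l t).2))
    (fun t j => D.c (g • (l t).1) j) (fun t => Q (l t).2)
    (fun t v => hproj (g • (l t).1) (l t).2 v) a
  rw [hg] at e2
  rw [e1]
  refine inA_of_conj W σ (fun J : Fin M → Fin D.r => ∏ s, D.c (l s).1 (J s))
    (fun J => ConjClass_prod_isAlgebraic _ fun t => D.isAlgebraic _ _)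
    (fun J => W.powMap M (fun s => Q (l s).2 (J s)) a)
    (fun J => RatHom.apply_mem W (RatHom.powMap W fun t => hQ (l t).2 (J t)) ha) ?_
  rw [e2]
  refine Finset.sum_congr rfl fun J _ => ?_
  rw [map_prod]
  congr 1
  exact Finset.prod_congr rfl fun t _ => (hσ _ _).symm

/-- The degrees of nonzero algebraic classes which are invariant and of given sign on an orbit. -/
lemma exists_inv [Fintype I] (D : P.RatData) (hD : NumClass D) {A : AddSubmonoid (I → ℤ)}
    (hA : ∀ d, d ∈ A ↔ ∃ (m : ℕ) (l : Fin m → I × Bool) (z : W.H (X.pow m)), z ∈ P.wordPart l ∧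
      z ∈ W.algSpan (X.pow m) ∧ z ≠ 0 ∧ ∀ i, wdeg l i = d i) (i : I) (b : Bool) :
    ∃ u ∈ A, (∀ (g : galG D) (j : I), u (g • j) = u j) ∧
      (∀ j, j ∉ MulAction.orbit (galG D) i → u j = 0) ∧ (if b then 0 < u i else u i < 0) := by
  classical
  have := Fintype.ofFinite (galG D)
  obtain ⟨m, l, h1, z, h3, h4, z', h5, h6⟩ := hD i b
  -- a class of a cycle whose part is not numerically trivial
  obtain ⟨a, ha, hant⟩ : ∃ a ∈ W.ratSpan (X.pow (m + 1)),
      ¬ W.NT (W.powMap (m + 1) (fun s => P.proj (l s)) a) := by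
    by_contra hcon
    push Not at hcon
    have h7 : ∀ x ∈ W.algSpan (X.pow (m + 1)), W.NT (W.powMap (m + 1) (fun s => P.proj (l s)) x) := by
      intro x hx
      unfold algSpan at hx
      induction hx using Submodule.span_induction with
      | mem a ha =>
        obtain ⟨j, y, rfl⟩ := ha
        exact hcon _ (W.cl_mem_ratSpan y)
      | zero => rw [map_zero]; exact ⟨Submodule.zero_mem _, fun b _ => by rw [zero_mul, map_zero]⟩
      | add a b _ _ ha hb =>
        rw [map_add]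
        exact ⟨Submodule.add_mem _ ha.1 hb.1, fun c hc => by
          rw [add_mul, map_add, ha.2 c hc, hb.2 c hc, add_zero]⟩
      | smul c a _ ha =>
        rw [map_smul]
        exact ⟨Submodule.smul_mem _ _ ha.1, fun b hb => by
          rw [smul_mul_assoc, map_smul, ha.2 b hb, smul_zero]⟩
    have h8 := h7 z h4
    rw [P.powMap_proj_eq h3] at h8
    exact h6 (h8.2 z' h5)
  have hne : ∀ g : galG D, W.powMap (m + 1) (fun s => P.proj (g • (l s).1, (l s).2)) a ≠ 0 :=
    fun g hg => hant (inA_of_conj_zero D l ha g hg).nt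
  have hmemA : ∀ g : galG D, (fun j => wdeg l (g⁻¹ • j)) ∈ A := fun g => by
    refine (hA _).2 ⟨m + 1, fun s => (g • (l s).1, (l s).2), _,
      P.powMap_proj_mem (fun s => (g • (l s).1, (l s).2)) a,
      W.algHom_apply_mem (W.powMap_mem_algHom fun s => P.proj_mem _) (W.ratSpan_le ha), hne g,
      fun i => ?_⟩
    exact orbit_wdeg_smul g l i
  have hw := orbit_wdeg_sign l b fun s => (h1 s).2
  have hsum : ∀ j, (∑ g : galG D, fun j => wdeg l (g⁻¹ • j)) j = ∑ g : galG D, wdeg l (g⁻¹ • j) :=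
    fun j => Finset.sum_apply _ _ _
  refine ⟨∑ g : galG D, fun j => wdeg l (g⁻¹ • j), sum_mem fun g _ => hmemA g, ?_, ?_, ?_⟩
  · intro g j
    rw [hsum, hsum, ← Equiv.sum_comp (Equiv.mulLeft g) fun h : galG D => wdeg l (h⁻¹ • g • j)]
    refine Finset.sum_congr rfl fun h _ => ?_
    change wdeg l ((g * h)⁻¹ • g • j) = _
    rw [mul_inv_rev, smul_smul, inv_mul_cancel_right]
  · intro j hj
    rw [hsum]
    refine Finset.sum_eq_zero fun g _ => ?_
    rw [hw]
    have h6 : Nat.card {s // l s = (g⁻¹ • j, b)} = 0 := by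
      rw [Nat.card_eq_zero]
      refine Or.inl ⟨fun a => hj ?_⟩
      obtain ⟨σ, hσ⟩ := (h1 a.1).1
      rw [a.2] at hσ
      have h9 : g⁻¹ • j ∈ MulAction.orbit (galG D) i :=
        ⟨⟨D.conj σ, Subgroup.subset_closure ⟨σ, rfl⟩⟩, hσ.symm⟩
      have h10 := MulAction.mem_orbit_of_mem_orbit g h9
      rwa [smul_inv_smul] at h10
    rw [h6]
    simp
  · obtain ⟨σ, hσ⟩ := (h1 0).1
    let g0 : galG D := ⟨D.conj σ, Subgroup.subset_closure ⟨σ, rfl⟩⟩
    have h6 : Nat.card {s // l s = (g0⁻¹⁻¹ • i, b)} ≠ 0 := by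
      have h7 : Nonempty {s // l s = (g0⁻¹⁻¹ • i, b)} := ⟨⟨0, Prod.ext (by
        rw [inv_inv]; exact hσ) (h1 0).2⟩⟩
      exact Nat.card_pos.ne'
    have h9 : (0 : ℤ) < ∑ g : galG D, (Nat.card {s // l s = (g⁻¹ • i, b)} : ℤ) := by
      refine Finset.sum_pos' (fun g _ => Int.natCast_nonneg _) ⟨g0⁻¹, Finset.mem_univ _, ?_⟩
      exact_mod_cast Nat.pos_of_ne_zero h6
    rw [hsum]
    simp only [hw, ← Finset.mul_sum]
    cases b
    · simp only [Bool.false_eq_true, if_false] at h9 ⊢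
      linarith
    · simp only [if_true] at h9 ⊢
      linarith

/-- The word parts of a numerically trivial class of a cycle with rational coefficients are combinations
with algebraic coefficients of coefficients of relations. -/
theorem inA_word [Fintype I] {S : Set (Module.End K (W.H X))} (hS : P.AbsIrr S) (D : P.RatData)
    (hD : NumClass D) {M : ℕ} (l : Fin M → I × Bool) {a : W.H (X.pow M)}
    (ha : a ∈ W.ratSpan (X.pow M)) (hnt : W.NT a) :
    InA W (W.powMap M (fun s => P.proj (l s)) a) := by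
  classical
  by_cases hcase : ∃ g : galG D, W.powMap M (fun s => P.proj (g • (l s).1, (l s).2)) a = 0
  · obtain ⟨g, hg⟩ := hcase
    exact inA_of_conj_zero D l ha g hg
  · exfalso
    push Not at hcase
    obtain ⟨A, hA⟩ := P.degMonoid
    have hmemA : ∀ g : galG D, W.powMap M (fun s => P.proj (g • (l s).1, (l s).2)) a ∈
        W.algSpan (X.pow M) := fun g =>
      W.algHom_apply_mem (W.powMap_mem_algHom fun s => P.proj_mem _) (W.ratSpan_le ha)
    obtain ⟨N, hN, hNA⟩ := neg_mem (G := galG D) A (wdeg l) (fun g => by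
        refine (hA _).2 ⟨M, fun s => (g • (l s).1, (l s).2), _,
          P.powMap_proj_mem (fun s => (g • (l s).1, (l s).2)) a, hmemA g, hcase g, fun i => ?_⟩
        exact orbit_wdeg_smul g l i)
      (fun i b => exists_inv D hD hA i b)
    obtain ⟨m', l', z', h1, h2, h3, h4⟩ := (hA _).1 hNA
    have h5 := hcase 1
    simp only [one_smul] at h5
    have hnt' : W.NT (W.powMap M (fun s => P.proj (l s)) a) :=
      hnt.algHom W (W.powMap_mem_algHom fun s => P.proj_mem _)
    exact h5 (nt_word_zero hS (P.powMap_proj_mem l a) hnt' hN h1 h2 h3 h4)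

/-- A numerically trivial class of a cycle with rational coefficients on `X^m` is a rational combination
of coefficients of relations. -/
theorem mem_relS_of_nt [Fintype I] {S : Set (Module.End K (W.H X))} (hS : P.AbsIrr S)
    (D : P.RatData) (hD : NumClass D) (hG : RatGenerate P) {m : ℕ} {a : W.H (X.pow m)}
    (ha : a ∈ W.ratSpan (X.pow m)) (hnt : W.NT a) : a ∈ relS W (X.pow m) := by
  obtain ⟨N, M, l, θ, η, hθ, hη, hd⟩ := dec_of_ratGenerate hG m
  refine mem_relS_of_inA W ha ?_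
  rw [← hd a]
  refine InA.sum W _ fun i _ => InA.map W ?_ (hη i)
  exact inA_word hS D hD (l i) (RatHom.apply_mem W (hθ i) ha) (hnt.algHom W (hθ i).mem_algHom)

end H64N
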