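import Pool.Agent.W_f569db_h64.Key

set_option autoImplicit false

/-!
# Numerically trivial cycles are the coefficients of relations
-/

noncomputable section

namespace H64N

open AlgebraicGeometry CategoryTheory MonoidalCategory
open Pool.Agent.WeilH_h6 Pool.Agent.WeilH_h6.VarClass Pool.Agent.WeilH_h6.Weil

universe u v w u' w'

variable {k : Type u} [Field k] {𝒱 : VarClass k} {K : Type v} [Field K] [CharZero K]
  {W : Weil.{u, v, w} 𝒱 K}

/-- homogeneous components of classes of cycles -/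
lemma pr_ratSpan {Y : 𝒱.Obj} {b : W.H Y} (hb : b ∈ W.ratSpan Y) (i : ℕ) :
    ∃ z : Cyc Y i, W.setup_pr Y (2 * i) b = W.cl z := by
  refine AddSubmonoid.closure_induction (motive := fun b _ => ∃ z : Cyc Y i,
    W.setup_pr Y (2 * i) b = W.cl z) ?_ ?_ ?_ hb
  · rintro _ ⟨j, z, rfl⟩
    rw [W.setup_pr_apply (W.cl_mem_grad z)]
    by_cases h : 2 * j = 2 * i
    · obtain rfl : j = i := by omega
      exact ⟨z, by rw [if_pos rfl]⟩
    · exact ⟨0, by rw [if_neg h, W.RatNT_cl_zero]⟩
  · exact ⟨0, by rw [map_zero, W.RatNT_cl_zero]⟩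
  · rintro x y _ _ ⟨z, hz⟩ ⟨z', hz'⟩
    exact ⟨z + z', by rw [map_add, hz, hz', W.cl_add]⟩

/-- the components of rational combinations of coefficients of relations -/
lemma pr_relS {Y : 𝒱.Obj} {b : W.H Y} (hb : b ∈ relS W Y) (i : ℕ) :
    ∃ z ∈ relCyc W Y i {t | IsAlgebraic ℚ t}, W.setup_pr Y (2 * i) b = W.cl z := by
  refine AddSubmonoid.closure_induction (motive := fun b _ =>
    ∃ z ∈ relCyc W Y i {t | IsAlgebraic ℚ t}, W.setup_pr Y (2 * i) b = W.cl z) ?_ ?_ ?_ hb
  · rintro _ ⟨r, t, y, h1, h2, h3, h4, rfl⟩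
    choose z hz using fun a => pr_ratSpan (h3 a) i
    refine ⟨z 0, Submodule.subset_span ⟨r, t, z, h1, h2, ?_, rfl⟩, hz 0⟩
    have h5 := congrArg (W.setup_pr Y (2 * i)) h4
    rw [map_sum, map_zero] at h5
    rw [← h5]
    refine Finset.sum_congr rfl fun a _ => ?_
    rw [map_smul, hz]
  · exact ⟨0, Submodule.zero_mem _, by rw [map_zero, W.RatNT_cl_zero]⟩
  · rintro x y _ _ ⟨z, hz, h1⟩ ⟨z', hz', h2⟩
    exact ⟨z + z', Submodule.add_mem _ hz hz', by rw [map_add, h1, h2, W.cl_add]⟩

/-- A cycle homologically equivalent to zero is a coefficient of a relation. -/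
lemma mem_relCyc_of_cl {Y : 𝒱.Obj} {i : ℕ} {z : Cyc Y i} (h : W.cl z = 0) (T : Set K)
    (hT : (1 : K) ∈ T) : z ∈ relCyc W Y i T := by
  refine Submodule.subset_span ⟨0, fun _ => 1, fun _ => z, fun _ => hT, ?_, ?_, rfl⟩
  · intro q hq
    rw [Fin.sum_univ_one, mul_one, Rat.cast_eq_zero] at hq
    funext a
    have ha : a = 0 := Fin.ext (by omega)
    rw [ha, hq]
    rfl
  · rw [Fin.sum_univ_one, h, smul_zero]

omit [CharZero K] in
lemma nt_of_numTrivial {Y : 𝒱.Obj} {i : ℕ} {z : Cyc Y i} (h : W.NumTrivial z) :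
    W.NT (W.cl z) := by
  refine ⟨W.cl_mem_algSpan z, fun b hb => ?_⟩
  unfold algSpan at hb
  induction hb using Submodule.span_induction with
  | mem b hb =>
    obtain ⟨j, z', rfl⟩ := hb
    by_cases hij : i + j = Y.dim
    · exact h j z' hij
    · exact W.tr_grad Y _ _ (W.mul_mem_grad (W.cl_mem_grad z) (W.cl_mem_grad z')) (by omega)
  | zero => rw [mul_zero, map_zero]
  | add a b _ _ ha hb => rw [mul_add, map_add, ha, hb, add_zero]
  | smul c a _ ha => rw [mul_smul_comm, map_smul, ha, smul_zero]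

/-- rational numbers with `∑ t_a x_a = 0`, `t_a` independent, are zero -/
lemma numTrivial_of_mem_coeffs {Y : 𝒱.Obj} {i : ℕ} {T : Set K} {z : Cyc Y i}
    (h : z ∈ coeffs W Y i T) : W.NumTrivial z := by
  obtain ⟨r, t, y, -, h2, h3, rfl⟩ := h
  intro j z' hij
  choose q hq using fun a => W.exists_rat hij (y a) z'
  have h4 : ∑ a, (q a : K) * t a = 0 := by
    have h5 := congrArg (fun x => W.tr Y (x * W.cl z')) h3
    simp only [zero_mul, map_zero, Finset.sum_mul, map_sum, smul_mul_assoc, map_smul, hq,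
      smul_eq_mul] at h5
    rw [← h5]
    exact Finset.sum_congr rfl fun a _ => mul_comm _ _
  rw [hq, congrFun (h2 q h4) 0]
  simp

lemma numTrivial_zero {Y : 𝒱.Obj} {i : ℕ} : W.NumTrivial (0 : Cyc Y i) := by
  intro j z' _
  rw [W.RatNT_cl_zero, zero_mul, map_zero]

lemma numTrivial_add {Y : 𝒱.Obj} {i : ℕ} {z z' : Cyc Y i} (h : W.NumTrivial z)
    (h' : W.NumTrivial z') : W.NumTrivial (z + z') := by
  intro j y hy
  rw [W.cl_add, add_mul, map_add, h j y hy, h' j y hy, add_zero]

lemma numTrivial_smul {Y : 𝒱.Obj} {i : ℕ} {z : Cyc Y i} (h : W.NumTrivial z) (q : ℚ) :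
    W.NumTrivial (q • z) := by
  intro j y hy
  rw [W.cl_smul, smul_mul_assoc, map_smul, h j y hy, smul_zero]

lemma numTrivial_of_mem_relCyc {Y : 𝒱.Obj} {i : ℕ} {T : Set K} {z : Cyc Y i}
    (h : z ∈ relCyc W Y i T) : W.NumTrivial z := by
  unfold relCyc at h
  induction h using Submodule.span_induction with
  | mem z hz => exact numTrivial_of_mem_coeffs hz
  | zero => exact numTrivial_zero
  | add z z' _ _ hz hz' => exact numTrivial_add hz hz'
  | smul q z _ hz => exact numTrivial_smul hz q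

lemma coeffs_mono {Y : 𝒱.Obj} {i : ℕ} {T T' : Set K} (h : T ⊆ T') :
    coeffs W Y i T ⊆ coeffs W Y i T' := by
  rintro z ⟨r, t, y, h1, h2, h3, h4⟩
  exact ⟨r, t, y, fun a => h (h1 a), h2, h3, h4⟩

section main

variable {X : 𝒱.Obj} {I : Type} [Fintype I] {P : W.Pieces X I} {S : Set (W.Hom X X)}

theorem mem_relCyc_of_numTrivial (hS : P.AbsIrr S) (D : P.RatData) (hD : NumClass D)
    (hG : RatGenerate P) {m i : ℕ} {z : Cyc (X.pow m) i} (hz : W.NumTrivial z) :
    z ∈ relCyc W (X.pow m) i {t | IsAlgebraic ℚ t} := by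
  obtain ⟨y, hy, hy'⟩ := pr_relS (mem_relS_of_nt hS D hD hG (W.cl_mem_ratSpan z)
    (nt_of_numTrivial hz)) i
  rw [W.setup_pr_apply (W.cl_mem_grad z), if_pos rfl] at hy'
  have h1 : z = y + (z + (-1 : ℚ) • y) := by
    rw [neg_one_smul]; abel
  rw [h1]
  refine Submodule.add_mem _ hy (mem_relCyc_of_cl ?_ _ isAlgebraic_one)
  rw [W.cl_add, W.cl_smul, hy']
  simp

end main

/-- If the relations with coefficients in `T` are trivial, then their coefficients are homologically
trivial. -/
lemma cl_eq_zero_of_mem_coeffs {Y : 𝒱.Obj} {i : ℕ} (h : CycIndepAt W Y i {t | IsAlgebraic ℚ t})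
    {z : Cyc Y i} (hz : z ∈ coeffs W Y i {t | IsAlgebraic ℚ t}) : W.cl z = 0 := by
  classical
  obtain ⟨r, t, y, h1, h2, h3, rfl⟩ := hz
  -- work in the `ℚ`-vector space `H(Y)`
  let _ : Module ℚ (W.H Y) := Module.compHom (W.H Y) (algebraMap ℚ K)
  have hsm : ∀ (q : ℚ) (x : W.H Y), q • x = (q : K) • x := fun q x => by
    change (algebraMap ℚ K q) • x = (q : K) • x
    rw [eq_ratCast]
  let U : Submodule ℚ (W.H Y) := Submodule.span ℚ (Set.range fun a => W.cl (y a))
  have : Module.Finite ℚ U := Module.Finite.span_of_finite ℚ (Set.finite_range _)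
  let B := Module.finBasis ℚ U
  -- the basis consists of classes of cycles
  have hU : ∀ x ∈ U, ∃ z : Cyc Y i, W.cl z = x := by
    intro x hx
    induction hx using Submodule.span_induction with
    | mem x hx => obtain ⟨a, rfl⟩ := hx; exact ⟨y a, rfl⟩
    | zero => exact ⟨0, W.RatNT_cl_zero⟩
    | add x x' _ _ hx hx' =>
      obtain ⟨z, rfl⟩ := hx
      obtain ⟨z', rfl⟩ := hx'
      exact ⟨z + z', W.cl_add _ _⟩
    | smul q x _ hx =>
      obtain ⟨z, rfl⟩ := hx
      exact ⟨q • z, by rw [W.cl_smul, hsm]⟩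
  choose z hz using fun b => hU (B b) (B b).2
  have hrepr : ∀ a, W.cl (y a) = ∑ b, ((B.repr ⟨W.cl (y a), Submodule.subset_span ⟨a, rfl⟩⟩ b : ℚ) : K) •
      W.cl (z b) := by
    intro a
    have e1 := B.sum_repr ⟨W.cl (y a), Submodule.subset_span ⟨a, rfl⟩⟩
    have e2 := congrArg (U.subtype) e1
    rw [map_sum] at e2
    refine (e2.symm.trans ?_ :)
    refine Finset.sum_congr rfl fun b _ => ?_
    rw [map_smul, hsm, hz]
    rfl
  obtain ⟨q, hq⟩ : ∃ q : Fin (r + 1) → Fin (Module.finrank ℚ U) → ℚ, ∀ a,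
      W.cl (y a) = ∑ b, (q a b : K) • W.cl (z b) := ⟨_, hrepr⟩
  -- the classes `cl (z b)` are independent over `ℚ`
  have hind : ∀ c : Fin (Module.finrank ℚ U) → ℚ, ∑ b, (c b : K) • W.cl (z b) = 0 → c = 0 := by
    intro c hc
    have e3 := Fintype.linearIndependent_iff.1 B.linearIndependent c (by
      apply Subtype.ext
      change (U.subtype) (∑ b, c b • B b) = _
      rw [map_sum]
      refine Eq.trans ?_ hc
      refine Finset.sum_congr rfl fun b _ => ?_
      rw [map_smul, hsm, hz]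
      rfl)
    funext b
    exact e3 b
  have h4 := h _ z hind (fun b => ∑ a, (q a b : K) * t a) (fun b => by
      change IsAlgebraic ℚ (∑ a, (q a b : K) * t a)
      refine Finset.sum_induction _ (IsAlgebraic ℚ) (fun _ _ => IsAlgebraic.add) isAlgebraic_zero
        fun a _ => (isAlgebraic_algebraMap (q a b : ℚ)).mul (h1 a)) (by
      rw [← h3]
      have e4 : ∀ a, t a • W.cl (y a) = ∑ b, ((q a b : K) * t a) • W.cl (z b) := by
        intro a
        rw [hq a, Finset.smul_sum]
        refine Finset.sum_congr rfl fun b _ => ?_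
        rw [smul_smul, mul_comm]
      rw [Finset.sum_congr rfl fun a _ => e4 a, Finset.sum_comm]
      refine Finset.sum_congr rfl fun b _ => ?_
      rw [Finset.sum_smul])
  rw [hq 0]
  refine Finset.sum_eq_zero fun b _ => ?_
  have h5 : (fun a => q a b) = 0 := h2 _ (congrFun h4 b)
  have h6 : q 0 b = 0 := congrFun h5 0
  rw [h6]
  simp

lemma cl_eq_zero_of_mem_relCyc {Y : 𝒱.Obj} {i : ℕ} (h : CycIndepAt W Y i {t | IsAlgebraic ℚ t})
    {z : Cyc Y i} (hz : z ∈ relCyc W Y i {t | IsAlgebraic ℚ t}) : W.cl z = 0 := by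
  unfold relCyc at hz
  induction hz using Submodule.span_induction with
  | mem z hz => exact cl_eq_zero_of_mem_coeffs h hz
  | zero => exact W.RatNT_cl_zero
  | add z z' _ _ hz hz' => rw [W.cl_add, hz, hz', add_zero]
  | smul q z _ hz => rw [W.cl_smul, hz, smul_zero]

/-- `D` in codimension `i` implies `I` in codimension `i`. -/
lemma cycIndepAt_of_homEqNumAt {Y : 𝒱.Obj} {i : ℕ} (h : HomEqNumAt W Y i) :
    CycIndepAt W Y i Set.univ := by
  intro r z hz t _ ht
  -- `K` over `ℚ`
  let β := Module.Basis.ofVectorSpace ℚ K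
  have hcoord : ∀ b, ∑ a, (β.repr (t a) b : K) • W.cl (z a) = 0 := by
    intro b
    have h1 : W.cl (∑ a, (β.repr (t a) b) • z a) = ∑ a, (β.repr (t a) b : K) • W.cl (z a) := by
      have h2 : ∀ s : Finset (Fin r), W.cl (∑ a ∈ s, (β.repr (t a) b) • z a) =
          ∑ a ∈ s, (β.repr (t a) b : K) • W.cl (z a) := by
        intro s
        induction s using Finset.induction_on with
        | empty => rw [Finset.sum_empty, Finset.sum_empty, W.RatNT_cl_zero]
        | insert a s ha ih => rw [Finset.sum_insert ha, Finset.sum_insert ha, W.cl_add, W.cl_smul, ih]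
      exact h2 _
    rw [← h1, ← h]
    intro j z' hij
    choose q hq using fun a => W.exists_rat hij (z a) z'
    rw [h1, Finset.sum_mul, map_sum]
    have h3 : ∑ a, t a * (q a : K) = 0 := by
      have h5 := congrArg (fun x => W.tr Y (x * W.cl z')) ht
      simp only [zero_mul, map_zero, Finset.sum_mul, map_sum, smul_mul_assoc, map_smul, hq,
        smul_eq_mul] at h5
      exact h5
    have h4 : ∑ a, (q a) * (β.repr (t a) b) = 0 := by
      have h6 := congrArg (fun x => β.repr x b) h3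
      have h7 : ∀ a, t a * (q a : K) = (q a) • t a := fun a => by rw [Rat.smul_def, mul_comm]
      simp only [h7, map_sum, map_smul, map_zero, Finsupp.coe_finsetSum, Finset.sum_apply,
        Finsupp.smul_apply, smul_eq_mul, Finsupp.coe_zero, Pi.zero_apply] at h6
      exact h6
    simp only [smul_mul_assoc, map_smul, hq, smul_eq_mul]
    have h8 : ((∑ a, (q a) * (β.repr (t a) b) : ℚ) : K) = 0 := by rw [h4, Rat.cast_zero]
    rw [← h8, Rat.cast_sum]
    refine Finset.sum_congr rfl fun a _ => ?_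
    rw [Rat.cast_mul, mul_comm]
  funext a
  have h9 : β.repr (t a) = 0 := by
    ext b
    exact congrFun (hz (fun a => β.repr (t a) b) (hcoord b)) a
  simpa using h9

section main2

variable {X : 𝒱.Obj} {I : Type} [Fintype I] {P : W.Pieces X I} {S : Set (W.Hom X X)}

/-- Maps of cycles which preserve the relations preserve numerical triviality. -/
theorem numTrivial_map (hS : P.AbsIrr S) (D : P.RatData) (hD : NumClass D)
    (hG : RatGenerate P) {m i : ℕ} {k' : Type u'} [Field k'] {𝒱' : VarClass k'}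
    (W' : Weil.{u', v, w'} 𝒱' K) {Y : 𝒱'.Obj} {i' : ℕ} {sp : Cyc (X.pow m) i → Cyc Y i'}
    (hsp : PreservesRel W W' sp) {z : Cyc (X.pow m) i} (hz : W.NumTrivial z) :
    W'.NumTrivial (sp z) := by
  -- `sp` is linear modulo homological equivalence
  have h0 : ∀ y : Cyc (X.pow m) i, W.cl y = 0 → W'.cl (sp y) = 0 := by
    intro y hy
    have h1 := hsp 1 (fun _ => 1) (fun _ => y) (fun _ => isAlgebraic_one) (by
      rw [Fin.sum_univ_one, hy, smul_zero])
    rwa [Fin.sum_univ_one, one_smul] at h1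
  have hadd : ∀ y y' : Cyc (X.pow m) i, W'.cl (sp (y + y')) = W'.cl (sp y) + W'.cl (sp y') := by
    intro y y'
    have h1 := hsp 3 ![1, -1, -1] ![y + y', y, y'] (by
        intro a
        fin_cases a
        · exact isAlgebraic_one
        · exact isAlgebraic_one.neg
        · exact isAlgebraic_one.neg) (by
      rw [Fin.sum_univ_three]
      change (1 : K) • W.cl (y + y') + (-1 : K) • W.cl y + (-1 : K) • W.cl y' = 0
      rw [W.cl_add, one_smul, neg_one_smul, neg_one_smul]
      abel)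
    rw [Fin.sum_univ_three] at h1
    change (1 : K) • W'.cl (sp (y + y')) + (-1 : K) • W'.cl (sp y) + (-1 : K) • W'.cl (sp y') = 0
      at h1
    rw [one_smul, neg_one_smul, neg_one_smul] at h1
    have h2 : W'.cl (sp (y + y')) - (W'.cl (sp y) + W'.cl (sp y')) = 0 := by
      rw [← h1]; abel
    exact sub_eq_zero.1 h2
  have hsmul : ∀ (q : ℚ) (y : Cyc (X.pow m) i), W'.cl (sp (q • y)) = (q : K) • W'.cl (sp y) := by
    intro q y
    have h1 := hsp 2 ![1, -(q : K)] ![q • y, y] (by
        intro a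
        fin_cases a
        · exact isAlgebraic_one
        · exact (isAlgebraic_algebraMap (q : ℚ)).neg) (by
      rw [Fin.sum_univ_two]
      change (1 : K) • W.cl (q • y) + (-(q : K)) • W.cl y = 0
      rw [W.cl_smul, one_smul, neg_smul, add_neg_cancel])
    rw [Fin.sum_univ_two] at h1
    change (1 : K) • W'.cl (sp (q • y)) + (-(q : K)) • W'.cl (sp y) = 0 at h1
    rw [one_smul, neg_smul] at h1
    exact eq_of_sub_eq_zero (by rw [sub_eq_add_neg]; exact h1)
  have h1 := mem_relCyc_of_numTrivial hS D hD hG hz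
  unfold relCyc at h1
  clear hz
  induction h1 using Submodule.span_induction with
  | mem z hz =>
    obtain ⟨r, t, y, h1, h2, h3, rfl⟩ := hz
    exact numTrivial_of_mem_coeffs (T := Set.univ) ⟨r, t, fun a => sp (y a),
      fun _ => Set.mem_univ _, h2, hsp _ t y h1 h3, rfl⟩
  | zero =>
    intro j z' _
    rw [h0 0 W.RatNT_cl_zero, zero_mul, map_zero]
  | add z z' _ _ hz hz' =>
    intro j y hy
    rw [hadd, add_mul, map_add, hz j y hy, hz' j y hy, add_zero]
  | smul q z _ hz =>
    intro j y hy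
    rw [hsmul, smul_mul_assoc, map_smul, hz j y hy, smul_zero]

/-- `D` in codimension `i'` on `Y` implies `D` in codimension `i` on `X^m`, if the map `sp` preserves
relations and reflects homological triviality. -/
theorem homEqNumAt_of_map (hS : P.AbsIrr S) (D : P.RatData) (hD : NumClass D)
    (hG : RatGenerate P) {m i : ℕ} {k' : Type u'} [Field k'] {𝒱' : VarClass k'}
    (W' : Weil.{u', v, w'} 𝒱' K) {Y : 𝒱'.Obj} {i' : ℕ} {sp : Cyc (X.pow m) i → Cyc Y i'}
    (hsp : PreservesRel W W' sp) (hr : ∀ z, W'.cl (sp z) = 0 → W.cl z = 0)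
    (h : HomEqNumAt W' Y i') : HomEqNumAt W (X.pow m) i := by
  intro z
  constructor
  · intro hz
    exact hr z ((h (sp z)).1 (numTrivial_map hS D hD hG W' hsp hz))
  · intro hz j z' _
    rw [hz, zero_mul, map_zero]

/-- The identity preserves relations. -/
lemma preservesRel_id {Y : 𝒱.Obj} {i : ℕ} : PreservesRel W W (id : Cyc Y i → Cyc Y i) :=
  fun _ _ _ _ h => h

/-- The descriptions of the numerically trivial cycles. -/
theorem numTrivial_tfae (hS : P.AbsIrr S) (D : P.RatData) (hD : NumClass D)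
    (hG : RatGenerate P) {m i : ℕ} (z : Cyc (X.pow m) i) :
    List.TFAE [W.NumTrivial z,
      ∀ (k' : Type u) (_ : Field k') (𝒱' : VarClass k') (W' : Weil.{u, v, w} 𝒱' K) (Y : 𝒱'.Obj)
        (i' : ℕ) (sp : Cyc (X.pow m) i → Cyc Y i'), PreservesRel W W' sp → W'.NumTrivial (sp z),
      z ∈ relCyc W (X.pow m) i {t | IsAlgebraic ℚ t}, z ∈ relCyc W (X.pow m) i Set.univ] := by
  tfae_have 1 → 2 := fun hz k' _ 𝒱' W' Y i' sp hsp => numTrivial_map hS D hD hG W' hsp hz
  tfae_have 2 → 1 := fun h => h k inferInstance 𝒱 W (X.pow m) i id preservesRel_id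
  tfae_have 1 → 3 := fun h => mem_relCyc_of_numTrivial hS D hD hG h
  tfae_have 3 → 4 := fun h => Submodule.span_mono (coeffs_mono (Set.subset_univ _)) h
  tfae_have 4 → 1 := fun h => numTrivial_of_mem_relCyc h
  tfae_finish

/-- `D`, `I` and `I'` are equivalent in each codimension. -/
theorem homEqNumAt_tfae (hS : P.AbsIrr S) (D : P.RatData) (hD : NumClass D)
    (hG : RatGenerate P) (m i : ℕ) :
    List.TFAE [HomEqNumAt W (X.pow m) i,
      ∃ (k' : Type u) (_ : Field k') (𝒱' : VarClass k') (W' : Weil.{u, v, w} 𝒱' K) (Y : 𝒱'.Obj)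
        (i' : ℕ) (sp : Cyc (X.pow m) i → Cyc Y i'), PreservesRel W W' sp ∧
          (∀ z, W'.cl (sp z) = 0 → W.cl z = 0) ∧ HomEqNumAt W' Y i',
      CycIndepAt W (X.pow m) i Set.univ, CycIndepAt W (X.pow m) i {t | IsAlgebraic ℚ t}] := by
  tfae_have 1 → 2 := fun h => ⟨k, inferInstance, 𝒱, W, X.pow m, i, id, preservesRel_id,
    fun _ h => h, h⟩
  tfae_have 2 → 1 := by
    rintro ⟨k', _, 𝒱', W', Y, i', sp, h1, h2, h3⟩
    exact homEqNumAt_of_map hS D hD hG W' h1 h2 h3
  tfae_have 1 → 3 := fun h => cycIndepAt_of_homEqNumAt h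
  tfae_have 3 → 4 := fun h r z hz t _ ht => h r z hz t (fun _ => Set.mem_univ _) ht
  tfae_have 4 → 1 := by
    intro h z
    constructor
    · intro hz
      exact cl_eq_zero_of_mem_relCyc h (mem_relCyc_of_numTrivial hS D hD hG hz)
    · intro hz j z' _
      rw [hz, zero_mul, map_zero]
  tfae_finish

end main2

end H64N
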