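import Pool.Agent.WeilH_h6.RatHom
import Pool.Agent.WeilH_h6.PartsB
import Pool.Agent.W_f569db_h64.Defs

set_option autoImplicit false

/-!
# Correspondences with rational coefficients: composition, pull-backs, decomposition of the identity
-/

noncomputable section

namespace H64N

open AlgebraicGeometry CategoryTheory MonoidalCategory
open Pool.Agent.WeilH_h6 Pool.Agent.WeilH_h6.VarClass Pool.Agent.WeilH_h6.Weil

universe u v w

variable {k : Type u} [Field k] {𝒱 : VarClass k} {K : Type v} [Field K] (W : Weil.{u, v, w} 𝒱 K)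

lemma isRatMap_iff {Y Z : 𝒱.Obj} {φ : W.H Y →ₗ[K] W.H Z} : IsRatMap W Y Z φ ↔ W.RatHom φ :=
  W.ratHom_iff.symm

lemma ratHom_pull [CharZero K] {Y Z : 𝒱.Obj} (f : Z ⟶ Y) : W.RatHom (W.pull f).toLinearMap := by
  obtain ⟨α, hα, h⟩ := W.push_ratSpan (Obj.lift f (𝟙 Z)) (W.one_mem_ratSpan Z)
  rw [W.ratHom_iff]
  refine ⟨α, hα, fun v w => ?_⟩
  rw [h, one_mul, map_mul (W.pull (Obj.lift f (𝟙 Z))), ← W.pull_comp, ← W.pull_comp,
    Obj.lift_fst, Obj.lift_snd, W.pull_id]
  rfl

/-- Composition of correspondences with rational coefficients. -/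
lemma ratHom_comp [CharZero K] {Y Z T : 𝒱.Obj} {φ : W.H Y →ₗ[K] W.H Z} {ψ : W.H Z →ₗ[K] W.H T}
    (hφ : W.RatHom φ) (hψ : W.RatHom ψ) : W.RatHom (ψ ∘ₗ φ) := by
  obtain ⟨α, hα, rfl⟩ := hφ
  obtain ⟨β, hβ, rfl⟩ := hψ
  let P := Y.prod (Z.prod T)
  let A : W.H P := W.pull (assocM Y Z T ≫ Obj.fst (Y.prod Z) T) α
  let B : W.H P := W.p2 Y (Z.prod T) β
  have hA : A ∈ W.ratSpan P := W.pull_mem_ratSpan _ hα
  have hB : B ∈ W.ratSpan P := W.pull_mem_ratSpan _ hβ
  let f : P ⟶ Y.prod T := Obj.lift (Obj.fst Y (Z.prod T)) (Obj.snd Y (Z.prod T) ≫ Obj.snd Z T)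
  obtain ⟨γ, hγ, h⟩ := W.push_ratSpan f (W.mul_mem_ratSpan hA hB)
  rw [W.ratHom_iff]
  refine ⟨γ, hγ, fun v w => ?_⟩
  rw [h]
  have hf : W.pull f (W.p1 Y T v * W.p2 Y T w) =
      W.p1 Y (Z.prod T) v * W.p2 Y (Z.prod T) (W.p2 Z T w) := by
    simp only [map_mul, ← W.pull_comp, f, Obj.lift_fst, Obj.lift_snd]
  have e : A * B * (W.p1 Y (Z.prod T) v * W.p2 Y (Z.prod T) (W.p2 Z T w)) =
      A * (W.p1 Y (Z.prod T) v * W.p2 Y (Z.prod T) (β * W.p2 Z T w)) := by
    rw [mul_assoc, map_mul, ← mul_assoc B, W.central (W.ratSpan_le hB), mul_assoc]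
  rw [hf, e, W.tr_assoc_key, ← mul_assoc, ← W.central (W.ratSpan_le hβ), mul_assoc, ← W.tr_act]
  rfl

/-- the isomorphism `X^(m+m') → X^m × X^m'` -/
def splitM (X : 𝒱.Obj) (m m' : ℕ) : X.pow (m + m') ⟶ (X.pow m).prod (X.pow m') :=
  Obj.lift (Obj.sel X (Fin.castAdd m')) (Obj.sel X (Fin.natAdd m))

/-- the isomorphism `X^m × X^m' → X^(m+m')` -/
def joinM (X : 𝒱.Obj) (m m' : ℕ) : (X.pow m).prod (X.pow m') ⟶ X.pow (m + m') :=
  Obj.liftP (m + m') (Fin.addCases (fun s => Obj.fst _ _ ≫ Obj.proj X m s)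
    fun s => Obj.snd _ _ ≫ Obj.proj X m' s)

lemma join_split (X : 𝒱.Obj) (m m' : ℕ) : joinM X m m' ≫ splitM X m m' = 𝟙 _ := by
  refine Obj.hom_ext ?_ ?_
  · rw [Category.assoc, Category.id_comp]
    unfold splitM
    rw [Obj.lift_fst]
    refine Obj.pow_hom_ext fun s => ?_
    rw [Category.assoc, Obj.sel_proj]
    unfold joinM
    rw [Obj.liftP_proj, Fin.addCases_left]
  · rw [Category.assoc, Category.id_comp]
    unfold splitM
    rw [Obj.lift_snd]
    refine Obj.pow_hom_ext fun s => ?_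
    rw [Category.assoc, Obj.sel_proj]
    unfold joinM
    rw [Obj.liftP_proj, Fin.addCases_right]

lemma pull_join_split {X : 𝒱.Obj} {m m' : ℕ} (a : W.H ((X.pow m).prod (X.pow m'))) :
    W.pull (joinM X m m') (W.pull (splitM X m m') a) = a := by
  rw [← W.pull_comp, join_split, W.pull_id]

lemma pull_split {X : 𝒱.Obj} {m m' : ℕ} (a : W.H (X.pow m)) (b : W.H (X.pow m')) :
    W.pull (splitM X m m') (W.p1 _ _ a * W.p2 _ _ b) = W.box2 a b := by
  unfold Weil.box2 splitM
  rw [map_mul, ← W.pull_comp, ← W.pull_comp, Obj.lift_fst, Obj.lift_snd]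

lemma powMap_append {X : 𝒱.Obj} {m m' : ℕ} (φ : Fin m → Module.End K (W.H X))
    (φ' : Fin m' → Module.End K (W.H X)) (a : W.H ((X.pow m).prod (X.pow m'))) :
    W.pull (joinM X m m') (W.powMap (m + m') (Fin.append φ φ') (W.pull (splitM X m m') a)) =
      W.extHom (W.powMap m φ) (W.powMap m' φ') a := by
  refine W.kunneth_induction _ _ (P := fun a => W.pull (joinM X m m')
    (W.powMap (m + m') (Fin.append φ φ') (W.pull (splitM X m m') a)) =
      W.extHom (W.powMap m φ) (W.powMap m' φ') a) ?_ ?_ a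
  · intro a b ha hb
    rw [map_add, map_add, map_add, map_add, ha, hb]
  intro x y
  refine W.pure_induction (P := fun x => W.pull (joinM X m m')
    (W.powMap (m + m') (Fin.append φ φ') (W.pull (splitM X m m') (W.p1 _ _ x * W.p2 _ _ y))) =
      W.extHom (W.powMap m φ) (W.powMap m' φ') (W.p1 _ _ x * W.p2 _ _ y)) ?_ ?_ ?_ x
  · intro a b ha hb
    rw [map_add, add_mul, map_add, map_add, map_add, map_add, ha, hb]
  · intro c a ha
    rw [map_smul, smul_mul_assoc, map_smul, map_smul, map_smul, map_smul, ha]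
  intro v
  refine W.pure_induction (P := fun y => W.pull (joinM X m m')
    (W.powMap (m + m') (Fin.append φ φ') (W.pull (splitM X m m')
      (W.p1 _ _ (W.pureT v) * W.p2 _ _ y))) =
      W.extHom (W.powMap m φ) (W.powMap m' φ') (W.p1 _ _ (W.pureT v) * W.p2 _ _ y)) ?_ ?_ ?_ y
  · intro a b ha hb
    rw [map_add, mul_add, map_add, map_add, map_add, map_add, ha, hb]
  · intro c a ha
    rw [map_smul, mul_smul_comm, map_smul, map_smul, map_smul, map_smul, ha]
  intro v'
  rw [pull_split, W.box2_pureT, W.powMap_pureT, W.extHom_apply, W.powMap_pureT, W.powMap_pureT]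
  have h1 : (fun s => Fin.append φ φ' s (Fin.append v v' s)) =
      Fin.append (fun s => φ s (v s)) fun s => φ' s (v' s) := by
    funext s
    refine Fin.addCases (fun i => ?_) (fun i => ?_) s
    · rw [Fin.append_left, Fin.append_left, Fin.append_left]
    · rw [Fin.append_right, Fin.append_right, Fin.append_right]
  rw [h1, ← W.box2_pureT, ← pull_split, pull_join_split]

variable {W}

/-- Decomposition of the identity of `H(X^m)` through word parts. -/
def Dec {X : 𝒱.Obj} {I : Type} (P : W.Pieces X I) (m : ℕ) : Prop :=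
  ∃ (N : ℕ) (M : Fin N → ℕ) (l : ∀ a, Fin (M a) → I × Bool)
    (θ : ∀ a, W.H (X.pow m) →ₗ[K] W.H (X.pow (M a)))
    (η : ∀ a, W.H (X.pow (M a)) →ₗ[K] W.H (X.pow m)),
    (∀ a, W.RatHom (θ a)) ∧ (∀ a, W.RatHom (η a)) ∧
    ∀ v : W.H (X.pow m), ∑ a, η a (W.powMap (M a) (fun s => P.proj (l a s)) (θ a v)) = v

lemma isWordProj_eq {X : 𝒱.Obj} {I : Type} {P : W.Pieces X I} {M : ℕ} {l : Fin M → I × Bool}
    {π : W.H (X.pow M) →ₗ[K] W.H (X.pow M)} (h : IsWordProj P l π) (a : W.H (X.pow M)) :
    π a = W.powMap M (fun s => P.proj (l s)) a := by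
  refine W.pure_induction (P := fun a => π a = W.powMap M (fun s => P.proj (l s)) a) ?_ ?_ ?_ a
  · intro a b ha hb
    rw [map_add, map_add, ha, hb]
  · intro c a ha
    rw [map_smul, map_smul, ha]
  · intro v
    rw [W.powMap_pureT]
    refine (h v).trans ?_
    rfl

/-- The decomposition for `X` gives decompositions for all powers of `X`. -/
theorem dec_of_ratGenerate [CharZero K] {X : 𝒱.Obj} {I : Type} {P : W.Pieces X I}
    (h : RatGenerate P) (m : ℕ) : Dec P m := by
  classical
  induction m with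
  | zero =>
    refine ⟨1, fun _ => 0, fun _ s => s.elim0, fun _ => LinearMap.id, fun _ => LinearMap.id,
      fun _ => RatHom.id W _, fun _ => RatHom.id W _, fun v => ?_⟩
    rw [Fin.sum_univ_one]
    rfl
  | succ m ih =>
    obtain ⟨N, M, l, θ, η, hθ, hη, hd⟩ := ih
    obtain ⟨N', M', l', θ', π', η', hθ', hπ', hη', hd'⟩ := h
    have hθr : ∀ a, W.RatHom (θ' a) := fun a => (isRatMap_iff W).1 (hθ' a)
    have hηr : ∀ a, W.RatHom (η' a) := fun a => (isRatMap_iff W).1 (hη' a)
    have hd2 : ∀ v : W.H X, ∑ a, η' a (W.powMap (M' a) (fun s => P.proj (l' a s)) (θ' a v)) = v := by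
      intro v
      have h1 : ∑ a, η' a (π' a (θ' a v)) = v := hd' v
      rw [← h1]
      refine Finset.sum_congr rfl fun a _ => ?_
      rw [isWordProj_eq (hπ' a)]
      rw [h1]
    let e : Fin (N * N') ≃ Fin N × Fin N' := finProdFinEquiv.symm
    refine ⟨N * N', fun a => M (e a).1 + M' (e a).2,
      fun a => Fin.append (l (e a).1) (l' (e a).2),
      fun a => (W.pull (splitM X (M (e a).1) (M' (e a).2))).toLinearMap ∘ₗ
        W.extHom (Y := X.pow m) (Y' := X) (θ (e a).1) (θ' (e a).2),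
      fun a => W.extHom (Z := X.pow m) (Z' := X) (η (e a).1) (η' (e a).2) ∘ₗ
        (W.pull (joinM X (M (e a).1) (M' (e a).2))).toLinearMap, fun a => ?_, fun a => ?_,
      fun v => ?_⟩
    · exact ratHom_comp W (RatHom.extHom W (hθ _) (hθr _)) (ratHom_pull W _)
    · exact ratHom_comp W (ratHom_pull W _) (RatHom.extHom W (hη _) (hηr _))
    · have hkey : ∀ b : Fin N × Fin N', ∀ v : W.H ((X.pow m).prod X),
          W.extHom (Z := X.pow m) (Z' := X) (η b.1) (η' b.2)
            (W.pull (joinM X (M b.1) (M' b.2)) (W.powMap (M b.1 + M' b.2)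
              (fun s => P.proj (Fin.append (l b.1) (l' b.2) s))
                (W.pull (splitM X (M b.1) (M' b.2))
                  (W.extHom (Y := X.pow m) (Y' := X) (θ b.1) (θ' b.2) v)))) =
          W.extHom (Z := X.pow m) (Z' := X) (η b.1) (η' b.2)
            (W.extHom (W.powMap (M b.1) fun s => P.proj (l b.1 s))
              (W.powMap (M' b.2) fun s => P.proj (l' b.2 s))
              (W.extHom (Y := X.pow m) (Y' := X) (θ b.1) (θ' b.2) v)) := by
        intro b v
        have h1 : (fun s => P.proj (Fin.append (l b.1) (l' b.2) s)) =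
            Fin.append (fun s => P.proj (l b.1 s)) (fun s => P.proj (l' b.2 s)) := by
          funext s
          refine Fin.addCases (fun i => ?_) (fun i => ?_) s
          · rw [Fin.append_left, Fin.append_left]
          · rw [Fin.append_right, Fin.append_right]
        rw [h1, powMap_append]
      have hsum : ∑ a, W.extHom (Z := X.pow m) (Z' := X) (η (e a).1) (η' (e a).2)
            (W.pull (joinM X (M (e a).1) (M' (e a).2)) (W.powMap (M (e a).1 + M' (e a).2)
              (fun s => P.proj (Fin.append (l (e a).1) (l' (e a).2) s))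
                (W.pull (splitM X (M (e a).1) (M' (e a).2))
                  (W.extHom (Y := X.pow m) (Y' := X) (θ (e a).1) (θ' (e a).2) v)))) =
          ∑ b : Fin N × Fin N', W.extHom (Z := X.pow m) (Z' := X) (η b.1) (η' b.2)
            (W.extHom (W.powMap (M b.1) fun s => P.proj (l b.1 s))
              (W.powMap (M' b.2) fun s => P.proj (l' b.2 s))
              (W.extHom (Y := X.pow m) (Y' := X) (θ b.1) (θ' b.2) v)) := by
        rw [← e.sum_comp]
        exact Finset.sum_congr rfl fun a _ => hkey (e a) v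
      refine Eq.trans ?_ (hsum.trans ?_)
      · rfl
      refine W.kunneth_induction (X.pow m) X (P := fun v => ∑ b : Fin N × Fin N',
        W.extHom (Z := X.pow m) (Z' := X) (η b.1) (η' b.2)
            (W.extHom (W.powMap (M b.1) fun s => P.proj (l b.1 s))
              (W.powMap (M' b.2) fun s => P.proj (l' b.2 s))
              (W.extHom (Y := X.pow m) (Y' := X) (θ b.1) (θ' b.2) v)) = v) ?_ ?_ v
      · intro a b ha hb
        simp only [map_add, Finset.sum_add_distrib]
        rw [ha, hb]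
      · intro x y
        simp only [W.extHom_apply]
        rw [Fintype.sum_prod_type]
        have h2 : ∀ (A : Fin N → W.H (X.pow m)) (B : Fin N' → W.H X),
            ∑ a, ∑ b, W.p1 (X.pow m) X (A a) * W.p2 (X.pow m) X (B b) =
              W.p1 (X.pow m) X (∑ a, A a) * W.p2 (X.pow m) X (∑ b, B b) := by
          intro A B
          rw [map_sum, map_sum, Finset.sum_mul_sum]
        have h3 := h2 (fun a => η a (W.powMap (M a) (fun s => P.proj (l a s)) (θ a x)))
          (fun a => η' a (W.powMap (M' a) (fun s => P.proj (l' a s)) (θ' a y)))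
        rw [hd, hd2] at h3
        exact h3

end H64N
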